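import Pool.Agent.H97.PC.PartB

/-!
# Every degree `2 < d < 3`: axioms 1, 2, 3 of the Selberg class, and axiom 4 off the multiples of `M`

For a Dirichlet character `χ ≠ 1` modulo `N` and any multiple `M` of `N` there are Dirichlet series
`F(s) = ∑ a(n) n^{-s}` of degree `d` (one Gamma factor `Γ(ds/2 + μ)`) with `a(n) = χ(n) n^{-σ}` for
all `n` not divisible by `M`, and `F(s) = exp (∑ b(n) n^{-s})` with `b(n) = 0` unless `n` is a prime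
power or a multiple of `M`, where the multiples of `M` carry the mass `∑ |b(n)| n^{-x} ≤ ε`.
-/

set_option autoImplicit false

namespace Pool.Agent.Results.MP_e68f0a_nt.AlmostEulerProduct

open Pool.Agent.H97.SE.PC

theorem result (d : ℝ) (hd : 2 < d) (hd3 : d < 3) (mu om : ℂ) (hmu : mu.re = (3 - d) / 4)
    (hom : ‖om‖ = 1) (M N : ℕ) (hM : 1 ≤ M) (hN : N ∣ M) (χ : DirichletCharacter ℂ N)
    (hχ : χ ≠ 1) (sg : ℝ) (hsg : 0 ≤ sg) (hsg2 : sg ≤ (d - 1) / (2 * d)) (x δ ε : ℝ)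
    (hx : 1 / 2 + 1 / d < x) (hxs : 1 - sg < x) (hδ : 0 < δ) (hε : 0 < ε) :
    ∃ Q0 : ℝ, 0 < Q0 ∧ ∀ Q : ℝ, Q0 ≤ Q → ∃ (a b : ℕ → ℂ) (G : ℂ → ℂ),
      (∀ n : ℕ, n ≠ 0 → ¬ M ∣ n → a n = χ (n : ZMod N) * ((n : ℝ) ^ (-sg) : ℝ)) ∧
      (∀ n : ℕ, n ≠ 0 → M ∣ n → ‖a n‖ ≤ ε * (n : ℝ) ^ (-(1 / 2 - 1 / d) + δ)) ∧
      (∀ n : ℕ, ¬ IsPrimePow n → ¬ M ∣ n → b n = 0) ∧
      (∀ n : ℕ, ¬ M ∣ n → ‖b n‖ ≤ 1) ∧
      (∀ K : ℕ, ∑ k ∈ Finset.Icc 1 K, ‖b (M * k)‖ * ((M * k : ℕ) : ℝ) ^ (-x) ≤ ε) ∧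
      Differentiable ℂ G ∧
      (∃ A C : ℝ, ∀ s : ℂ, ‖G s‖ ≤ C * Real.exp (‖s‖ ^ A)) ∧
      (∀ s : ℂ, x < s.re → LSeriesSummable a s ∧ LSeriesSummable b s ∧ G s = LSeries a s ∧
        G s = Complex.exp (LSeries b s)) ∧
      ∀ s : ℂ, 0 < s.re → s.re < 1 →
        (Q : ℂ) ^ s * Complex.Gamma ((d / 2 : ℝ) * s + mu) * G s =
        om * (starRingEnd ℂ) ((Q : ℂ) ^ (1 - (starRingEnd ℂ) s) *
          Complex.Gamma ((d / 2 : ℝ) * (1 - (starRingEnd ℂ) s) + mu) *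
          G (1 - (starRingEnd ℂ) s)) := by
  have hs : d * sg ≤ (d - 1) / 2 := by
    have h1 := mul_le_mul_of_nonneg_left hsg2 (by linarith : (0 : ℝ) ≤ d)
    have h2 : d * ((d - 1) / (2 * d)) = (d - 1) / 2 := by
      have h3 : d ≠ 0 := by linarith
      field_simp
    rwa [h2] at h1
  obtain ⟨Q0, hQ0, H⟩ := partB hd hd3 hmu hom hM hN hχ hsg hs hx hxs hδ hε
  refine ⟨Q0, hQ0, fun Q hQ => ?_⟩
  obtain ⟨a, b, G, h1, h2, h3, h4, h5, hG, h6⟩ := H Q hQ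
  exact ⟨a, b, G, h1, h2, h3, h4, h5, hG.diff, hG.order,
    fun s hs => ⟨hG.conv s hs, (h6 s hs).1, hG.eq s hs, (h6 s hs).2⟩, hG.fe⟩

end Pool.Agent.Results.MP_e68f0a_nt.AlmostEulerProduct
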