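import Pool.Agent.H97.PC.PartA

/-!
# Degree `2 < d < 3`: all coefficients outside one residue class prescribed, periodic of mean zero

For every real `d` with `2 < d < 3`, every `P` of period `M` and mean zero over a period, and every
residue class `r` modulo `M`, there are Dirichlet series `∑ a(n) n^{-s}` that satisfy axioms 1 (entire
of finite order), 2 and 3 (one Gamma factor `Γ(ds/2 + μ)`) of the Selberg class and whose coefficients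
are exactly `a(n) = P(n) n^{-σ}` for all `n` outside the class.  The constants `Q0`, `C` do not depend
on `P` and `r`.
-/

set_option autoImplicit false

namespace Pool.Agent.Results.MP_e68f0a_nt.PeriodicCoefficients

open Pool.Agent.H97.SE.PC

theorem result (d : ℝ) (hd : 2 < d) (hd3 : d < 3) (mu om : ℂ) (hmu : mu.re = (3 - d) / 4)
    (hom : ‖om‖ = 1) (M : ℕ) (hM : 1 ≤ M) (sg : ℝ) (hsg : 0 ≤ sg)
    (hsg2 : sg ≤ (d - 1) / (2 * d)) (δ : ℝ) (hδ : 0 < δ) (x : ℝ) (hx : 1 / 2 + 1 / d < x)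
    (hxs : 1 - sg ≤ x) :
    ∃ Q0 C : ℝ, 0 < Q0 ∧ ∀ Q : ℝ, Q0 ≤ Q → ∀ (P : ℕ → ℂ) (r : ℕ) (K : ℝ),
      (∀ n, P (n + M) = P n) → ∑ n ∈ Finset.range M, P n = 0 → (∀ n, ‖P n‖ ≤ K) →
      ∃ (a : ℕ → ℂ) (G : ℂ → ℂ),
        (∀ n : ℕ, n ≠ 0 → ¬ n ≡ r [MOD M] → a n = P n * ((n : ℝ) ^ (-sg) : ℝ)) ∧
        (∀ n : ℕ, n ≠ 0 → ‖a n - P n * ((n : ℝ) ^ (-sg) : ℝ)‖ ≤
          C * K * Q ^ (-(1 / d)) * (n : ℝ) ^ (-(1 / 2 - 1 / d) + δ)) ∧
        Differentiable ℂ G ∧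
        (∃ A C' : ℝ, ∀ s : ℂ, ‖G s‖ ≤ C' * Real.exp (‖s‖ ^ A)) ∧
        (∀ s : ℂ, x < s.re → LSeriesSummable a s ∧ G s = LSeries a s) ∧
        ∀ s : ℂ, 0 < s.re → s.re < 1 →
          (Q : ℂ) ^ s * Complex.Gamma ((d / 2 : ℝ) * s + mu) * G s =
          om * (starRingEnd ℂ) ((Q : ℂ) ^ (1 - (starRingEnd ℂ) s) *
            Complex.Gamma ((d / 2 : ℝ) * (1 - (starRingEnd ℂ) s) + mu) *
            G (1 - (starRingEnd ℂ) s)) := by
  have hs : d * sg ≤ (d - 1) / 2 := by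
    have h1 := mul_le_mul_of_nonneg_left hsg2 (by linarith : (0 : ℝ) ≤ d)
    have h2 : d * ((d - 1) / (2 * d)) = (d - 1) / 2 := by
      have h3 : d ≠ 0 := by linarith
      field_simp
    rwa [h2] at h1
  obtain ⟨Q0, C, hQ0, H⟩ := partA hd hd3 hmu hom hM hsg hs hx hxs hδ
  refine ⟨Q0, C, hQ0, fun Q hQ P r K hP hP0 hK => ?_⟩
  obtain ⟨a, G, h1, h2, hG⟩ := H Q hQ P r K hP hP0 hK
  exact ⟨a, G, h1, h2, hG.diff, hG.order, fun s hs => ⟨hG.conv s hs, hG.eq s hs⟩, hG.fe⟩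

end Pool.Agent.Results.MP_e68f0a_nt.PeriodicCoefficients
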