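import Pool.Agent.H15.TB1.M89

/-!
# The Selberg class contains elements of every real degree greater than `16/3`

`SelbergDegree d` (in `Pool/Agent/H97/EP/Deg.lean`) says that some function in the Selberg class
(all four axioms of the problem, clause by clause as in the frozen statements) has degree `d`.
The theorem: this holds for every real `d > 16/3`.
-/

set_option autoImplicit false

namespace Pool.Agent.Results.MP_e68f0a_nt.SelbergClassDegrees

open Pool.Agent.H97.EP

theorem result : ∀ d : ℝ, 16 / 3 < d → SelbergDegree d := fun _ hd => degree_of_gt hd

end Pool.Agent.Results.MP_e68f0a_nt.SelbergClassDegrees
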