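import Pool.Agent.H97.SD.Main

/-!
# The strong degree conjecture fails for every real degree `d > 2`

`Sol d Q mu om P e a` (see `Pool/Agent/H97/SD/Defs.lean`) says that `F(s) = ∑ a(n) n^{-s}` converges
absolutely for `Re s > 1/2 + 1/d` (a number `< 1`), extends to an entire function `G` of finite order,
satisfies the functional equation of the Selberg class with one Gamma factor `Γ(ds/2 + μ)` (so of
degree `2 · d/2 = d`), conductor parameter `Q` and root number `ω`, that `a(km) = e(k) a(m)` for `k`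
composed of primes of `P` and `m` prime to `P`, and that `∑ |a(m)|² m^{-2/d} < ∞` over the `m` prime
to `P`.  The case `P = ∅`, `e = 1` is allowed.  These are all the axioms of the Selberg class except the
Euler product outside `P` and the pointwise Ramanujan bound.
-/

set_option autoImplicit false

namespace Pool.Agent.Results.MP_e68f0a_nt.StrongDegree

open Pool.Agent.H97.SD

/-- Dirichlet series with a functional equation of the Selberg class of every real degree `d > 2`
exist in abundance, with prescribed local factors at a (finite or sparse infinite) set of primes. -/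
theorem result (d : ℝ) (hd : 2 < d) (mu om : ℂ) (hmu : 0 ≤ mu.re) (hom : ‖om‖ = 1)
    (P : Set ℕ) (hP : ∀ p ∈ P, Nat.Prime p)
    (hPs : Summable fun p : P => ((p : ℕ) : ℝ) ^ (-(1 / 2 - 1 / d)))
    (e et : ArithmeticFunction ℂ) (he1 : e 1 = 1) (hinv : e * et = 1)
    (hsupp : ∀ k : ℕ, ¬ Smooth P k → e k = 0)
    (hes : Summable fun k : ℕ => ‖e k‖ * (k : ℝ) ^ (-(1 / 2 - 1 / d)))
    (hets : Summable fun k : ℕ => ‖et k‖ * (k : ℝ) ^ (-(1 / 2 + 1 / d))) :
    (∀ Q : ℝ, 0 < Q → ∀ K : ℕ, ∃ a : Fin K → ℕ → ℂ, LinearIndependent ℝ a ∧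
      ∀ i, Sol d Q mu om P e (a i)) ∧
    (∀ N : ℕ, ∃ Q0 : ℝ, 0 < Q0 ∧ ∀ Q : ℝ, Q0 ≤ Q → ∀ z : ℕ → ℂ, ∃ a : ℕ → ℂ,
      Sol d Q mu om P e a ∧ ∀ m : ℕ, m ≤ N → Free P m → a m = z m) := by
  have H : Hyp d P e et := by
    refine ⟨hd, hP, hPs, ArithmeticFunction.map_zero, ArithmeticFunction.map_zero, he1, hsupp,
      ?_, hes, hets⟩
    intro n hn
    rw [← ArithmeticFunction.mul_apply, hinv, ArithmeticFunction.one_apply]
  exact ⟨fun Q hQ K => mainF H hmu hom hQ K, fun N => mainN H hmu hom N⟩

end Pool.Agent.Results.MP_e68f0a_nt.StrongDegree
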